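import Mathlib
import Pool.Agent.Y674.HM.Dbl

/-!
Hall's conjecture with the optimal exponents for the integral points of Mordell curves which are
divisible by two over a fixed number field.
-/

set_option autoImplicit false

namespace Pool.Agent.Results.MP_f2148a_nt.DoubledPoints

open Pool.Agent.Y674.HM

/-- Let `K` be a number field. For every `ε > 0` there is a constant `C` such that every integral
point `(x, y)` of every Mordell curve `y ^ 2 = x ^ 3 + k`, `k ≠ 0`, which is the double of a point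
`(X, Y)` of the curve with coordinates in `K` (`l` is the slope of the tangent line at `(X, Y)`),
satisfies `|x| ≤ C |k| ^ (4 / 3 + ε)` and `|y| ≤ C |k| ^ (2 + ε)`. The exponents `4 / 3` and `2`
are best possible: for arbitrarily large `|x|` there are such points with `|k| ^ 4 ≤ |x| ^ 3` and
`|k| ^ 2 ≤ |y|`. -/
theorem result (K : Type) [Field K] [NumberField K] :
    (∀ ε : ℝ, 0 < ε → ∃ C : ℝ, ∀ k x y : ℤ, k ≠ 0 → y ^ 2 = x ^ 3 + k →
      (∃ X Y l : K, Y ^ 2 = X ^ 3 + k ∧ 2 * Y * l = 3 * X ^ 2 ∧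
        l ^ 2 - 2 * X = x ∧ l * (X - x) - Y = y) →
      |(x : ℝ)| ≤ C * |(k : ℝ)| ^ (4 / 3 + ε) ∧ |(y : ℝ)| ≤ C * |(k : ℝ)| ^ (2 + ε)) ∧
    (∀ N : ℤ, ∃ k x y : ℤ, k ≠ 0 ∧ y ^ 2 = x ^ 3 + k ∧
      (∃ X Y l : K, Y ^ 2 = X ^ 3 + k ∧ 2 * Y * l = 3 * X ^ 2 ∧
        l ^ 2 - 2 * X = x ∧ l * (X - x) - Y = y) ∧
      N ≤ |x| ∧ |k| ^ 4 ≤ |x| ^ 3 ∧ |k| ^ 2 ≤ |y|) :=
  ⟨fun ε hε => dbl K ε hε, fun N => dbl_sharp K N⟩

end Pool.Agent.Results.MP_f2148a_nt.DoubledPoints
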