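import Mathlib
import Pool.Agent.Results.MP_9d7cd1_nt.SparseSolutions

set_option autoImplicit false

/-!
# Hall's inequality for the sparse coprime solutions of Mordell's equations whose constant has an S-part

Let `S` be a finite set of primes and `η > 0`. For coprime integers `x`, `y` with `y ^ 2 = x ^ 3 + k`,
where `k` has a divisor `s` composed of the primes in `S` with `|s| ≥ |k| ^ η`, which are sums of
at most `l` numbers `r u`, `u` an `S`-unit and `r` an integer of absolute value at most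
`B max(|x|, |y|) ^ δ`, we prove `max(|x|, |y|) ≤ C |k| ^ 3`.
-/

namespace Pool.Agent.Results.MP_f2148a_nt.SparseWithSPart

/-- `u` is an `S`-unit: plus or minus a product of powers (with integer exponents) of the primes in
`S` -/
def IsSUnit (S : Finset ℕ) (u : ℚ) : Prop :=
  ∃ (σ : ℤ) (e : ℕ → ℤ), (σ = 1 ∨ σ = -1) ∧ u = σ * ∏ p ∈ S, (p : ℚ) ^ e p

/-- the rational number `z` is a sum of `l` `S`-units with integer coefficients of absolute value at
most `R` -/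
def IsSparse (S : Finset ℕ) (l : ℕ) (R : ℝ) (z : ℚ) : Prop :=
  ∃ (u : Fin l → ℚ) (r : Fin l → ℤ), (∀ j, IsSUnit S (u j)) ∧ (∀ j, |(r j : ℝ)| ≤ R) ∧
    z = ∑ j, u j * r j

/-- **Main theorem.** For every finite set `S` of primes, all `l`, all real `B` and all `η > 0` there
are `δ > 0` and `C` such that `max(|x|, |y|) ≤ C |k| ^ 3` for all coprime integers `x`, `y` with
`y ^ 2 = x ^ 3 + k`, `k ≠ 0`, such that `k` is divisible by an integer `S`-unit `s` with
`|s| ≥ |k| ^ η` and `x` and `y` are sums of `l` `S`-units with integer coefficients of absolute value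
at most `B max(|x|, |y|) ^ δ`. -/
theorem result (S : Finset ℕ) (hS : ∀ p ∈ S, p.Prime) (l : ℕ) (B η : ℝ) (hη : 0 < η) :
    ∃ (δ C : ℝ), 0 < δ ∧ ∀ (x y k s : ℤ), IsCoprime x y → k ≠ 0 → y ^ 2 = x ^ 3 + k →
      s ∣ k → IsSUnit S s → ((|k| : ℤ) : ℝ) ^ η ≤ ((|s| : ℤ) : ℝ) →
      IsSparse S l (B * ((max |x| |y| : ℤ) : ℝ) ^ δ) x →
      IsSparse S l (B * ((max |x| |y| : ℤ) : ℝ) ^ δ) y →
      ((max |x| |y| : ℤ) : ℝ) ≤ C * ((|k| : ℤ) : ℝ) ^ 3 := by
  obtain ⟨δ, C, hδ, hmain⟩ :=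
    Pool.Agent.Results.MP_9d7cd1_nt.SparseSolutions.result S hS l B η hη
  refine ⟨δ, max 1 (Real.exp C), hδ, ?_⟩
  intro x y k s hxy hk heq hsk hsu hks hsx hsy
  have hk1 : (1 : ℝ) ≤ ((|k| : ℤ) : ℝ) := by
    have : 1 ≤ |k| := Int.one_le_abs hk
    exact_mod_cast this
  have hk3 : (1 : ℝ) ≤ ((|k| : ℤ) : ℝ) ^ 3 := one_le_pow₀ hk1
  have hC1 : 1 ≤ max 1 (Real.exp C) := le_max_left _ _
  obtain ⟨d, hd⟩ := hsk
  have hs0 : s ≠ 0 := by
    rintro rfl
    exact hk (by rw [hd, zero_mul])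
  have hd0 : d ≠ 0 := by
    rintro rfl
    exact hk (by rw [hd, mul_zero])
  have hbase : ∀ z : ℤ, |z| ≤ 1 → ((|z| : ℤ) : ℝ) ≤ max 1 (Real.exp C) * ((|k| : ℤ) : ℝ) ^ 3 := by
    intro z hz
    have h1 : ((|z| : ℤ) : ℝ) ≤ 1 := by exact_mod_cast hz
    nlinarith
  have hfin : ∀ z : ℤ, z ≠ 0 →
      Real.log ((|z| : ℤ) : ℝ) < (3 + η) * Real.log ((|d| : ℤ) : ℝ) + C →
      ((|z| : ℤ) : ℝ) ≤ max 1 (Real.exp C) * ((|k| : ℤ) : ℝ) ^ 3 := by
    intro z hz h
    have hz1 : (0 : ℝ) < ((|z| : ℤ) : ℝ) := by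
      have : 0 < |z| := abs_pos.2 hz
      exact_mod_cast this
    have hs1 : (0 : ℝ) < ((|s| : ℤ) : ℝ) := by
      have : 0 < |s| := abs_pos.2 hs0
      exact_mod_cast this
    have hd1 : (0 : ℝ) < ((|d| : ℤ) : ℝ) := by
      have : 0 < |d| := abs_pos.2 hd0
      exact_mod_cast this
    have hkd : ((|k| : ℤ) : ℝ) = ((|s| : ℤ) : ℝ) * ((|d| : ℤ) : ℝ) := by
      rw [hd, abs_mul]
      push_cast
      ring
    have hkpos : (0 : ℝ) < ((|k| : ℤ) : ℝ) := by linarith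
    have h1 : Real.log ((|k| : ℤ) : ℝ) =
        Real.log ((|s| : ℤ) : ℝ) + Real.log ((|d| : ℤ) : ℝ) := by
      rw [hkd, Real.log_mul hs1.ne' hd1.ne']
    have h2 : η * Real.log ((|k| : ℤ) : ℝ) ≤ Real.log ((|s| : ℤ) : ℝ) := by
      have := Real.log_le_log (Real.rpow_pos_of_pos hkpos η) hks
      rwa [Real.log_rpow hkpos] at this
    have hk0 : 0 ≤ Real.log ((|k| : ℤ) : ℝ) := Real.log_nonneg hk1
    have h3 : Real.log ((|d| : ℤ) : ℝ) ≤ (1 - η) * Real.log ((|k| : ℤ) : ℝ) := by linarith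
    have h4 : (3 + η) * Real.log ((|d| : ℤ) : ℝ) ≤ 3 * Real.log ((|k| : ℤ) : ℝ) := by
      have h5 := mul_le_mul_of_nonneg_left h3 (by linarith : (0 : ℝ) ≤ 3 + η)
      have h6 : (3 + η) * ((1 - η) * Real.log ((|k| : ℤ) : ℝ)) =
          3 * Real.log ((|k| : ℤ) : ℝ) - (2 * η + η ^ 2) * Real.log ((|k| : ℤ) : ℝ) := by ring
      have h7 : 0 ≤ (2 * η + η ^ 2) * Real.log ((|k| : ℤ) : ℝ) := mul_nonneg (by positivity) hk0
      linarith
    have h5 : Real.log ((|z| : ℤ) : ℝ) ≤ Real.log (Real.exp C * ((|k| : ℤ) : ℝ) ^ 3) := by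
      rw [Real.log_mul (Real.exp_pos C).ne' (by positivity), Real.log_exp, Real.log_pow]
      push_cast
      push_cast at h h4
      linarith
    have h6 := (Real.log_le_log_iff hz1 (by positivity)).1 h5
    refine h6.trans (mul_le_mul_of_nonneg_right (le_max_right _ _) (by positivity))
  have hboth : ((|x| : ℤ) : ℝ) ≤ max 1 (Real.exp C) * ((|k| : ℤ) : ℝ) ^ 3 ∧
      ((|y| : ℤ) : ℝ) ≤ max 1 (Real.exp C) * ((|k| : ℤ) : ℝ) ^ 3 := by
    by_cases hx : x = 0
    · have hy1 : IsUnit y := by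
        rw [hx] at hxy
        exact isCoprime_zero_left.1 hxy
      have hy2 : |y| ≤ 1 := by
        rcases Int.isUnit_iff.1 hy1 with h | h <;> rw [h] <;> norm_num
      exact ⟨hbase x (by rw [hx]; norm_num), hbase y hy2⟩
    by_cases hy : y = 0
    · have hx1 : IsUnit x := by
        rw [hy] at hxy
        exact isCoprime_zero_right.1 hxy
      have hx2 : |x| ≤ 1 := by
        rcases Int.isUnit_iff.1 hx1 with h | h <;> rw [h] <;> norm_num
      exact ⟨hbase x hx2, hbase y (by rw [hy]; norm_num)⟩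
    obtain ⟨h1, h2⟩ := hmain x y d s hxy hd0 hsu (by rw [heq, hd]) hx hy hsx hsy
    have hdlog : 0 ≤ Real.log ((|d| : ℤ) : ℝ) := by
      refine Real.log_nonneg ?_
      have : 1 ≤ |d| := Int.one_le_abs hd0
      exact_mod_cast this
    exact ⟨hfin x hx (by nlinarith), hfin y hy h2⟩
  rcases max_choice |x| |y| with h | h
  · rw [h]
    exact hboth.1
  · rw [h]
    exact hboth.2

end Pool.Agent.Results.MP_f2148a_nt.SparseWithSPart
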