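import Pool.Agent.Results.MP_f2148a_nt.SparseViolations
import Pool.Agent.Results.MP_f2148a_nt.AlmostAllK
import Pool.Agent.Results.MP_e734ed_nt.SparseExceptions
import Pool.Agent.Y854.GM.Win

/-!
# Hall's inequality in short windows around thin sequences

Let `v ≥ 1` be a sequence with exponent of convergence at most `τ` (for `v_n = n ^ κ` this is `1 / κ`, for `v_n = b ^ n`
or `n!` it is `0`), `0 ≤ θ < 1` and `C > 0` any constant. For all `α > 0` outside a set of Hausdorff dimension at most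
`(1/3 + τ) / (1 - θ)`, for all but finitely many `n` EVERY integral point with `||x| - α v_n| ≤ v_n ^ θ` on EVERY curve
`y² = x³ + k`, `k ≠ 0`, satisfies `max (|x|, |y|) ≤ C |k|³`. The same is true for all `k` with `||k| - α v_n| ≤ v_n ^ θ`
and all integral points with `|x| ≤ |k| ^ A`, with `A/4 + 1/6` instead of `1/3`. With `99/100` instead of `1/3` the
curves with `||k| - α v_n| ≤ v_n ^ θ` have no integral point at all with `|x| ≤ exp(|k| ^ (1/10000))`.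
-/

set_option autoImplicit false

namespace Pool.Agent.Results.MP_f2148a_nt.WindowsWithoutViolations

/-- the exponent of convergence of the sequence `v` is at most `τ` -/
def ExpLe (v : ℕ → ℝ) (τ : ℝ) : Prop := ∀ t : ℝ, τ < t → Summable (fun n : ℕ => (v n) ^ (-t))

/-- the pairs `(x, y)` on a curve `y² = x³ + k`, `k ≠ 0`, which violate the inequality, and the pair `(0, 0)` -/
def Viol (C : ℝ) : Set (ℤ × ℤ) :=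
  {e : ℤ × ℤ | (e.1 ≠ 0 ∧ e.2 ^ 2 ≠ e.1 ^ 3 ∧
    C * |((e.2 ^ 2 - e.1 ^ 3 : ℤ) : ℝ)| ^ 3 < max |((e.1 : ℤ) : ℝ)| |((e.2 : ℤ) : ℝ)|) ∨ e = (0, 0)}

lemma count_x (C : ℝ) (hC : 0 < C) (ε : ℝ) (hε : 0 < ε) : ∃ K : ℝ, ∀ X : ℝ, 1 ≤ X →
    {e | e ∈ Viol C ∧ |((e.1 : ℤ) : ℝ)| ≤ X}.Finite ∧
      ({e | e ∈ Viol C ∧ |((e.1 : ℤ) : ℝ)| ≤ X}.ncard : ℝ) ≤ K * X ^ (1 / 3 + ε) := by
  obtain ⟨C', k₀, hC', hk₀, hor⟩ := SparseViolations.small_or hC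
  obtain ⟨K, hK⟩ := Pool.Agent.Results.MP_e734ed_nt.SparseExceptions.result (max C' k₀) ε hε
  refine ⟨|K| + 1, fun X hX => ?_⟩
  obtain ⟨hfin, hcard⟩ := hK 0 le_rfl (by norm_num) X hX
  set S : Set (ℤ × ℤ) := {e : ℤ × ℤ | |(e.1 : ℝ)| ≤ X ∧ e.2 ^ 2 ≠ e.1 ^ 3 ∧
        |(e.2 : ℝ) ^ 2 - (e.1 : ℝ) ^ 3| ≤ (max C' k₀) * |(e.1 : ℝ)| ^ ((1 : ℝ) / 2 - 0)} with hS
  have hsub : {e | e ∈ Viol C ∧ |((e.1 : ℤ) : ℝ)| ≤ X} ⊆ S ∪ {(0, 0)} := by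
    rintro e ⟨he, hX2⟩
    rcases he with ⟨hx, hxy, hv⟩ | he
    · left
      refine ⟨hX2, hxy, ?_⟩
      have hk : e.2 ^ 2 - e.1 ^ 3 ≠ 0 := sub_ne_zero.2 hxy
      have h1 := hor (e.2 ^ 2 - e.1 ^ 3) e.1 e.2 hk (by ring) hv
      have hcast : (((e.2 ^ 2 - e.1 ^ 3 : ℤ)) : ℝ) = (e.2 : ℝ) ^ 2 - (e.1 : ℝ) ^ 3 := by push_cast; ring
      rw [hcast] at h1
      have hx1 : (1 : ℝ) ≤ |((e.1 : ℤ) : ℝ)| := by
        rw [← Int.cast_abs]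
        exact_mod_cast Int.one_le_abs hx
      have hp1 : (1 : ℝ) ≤ |((e.1 : ℤ) : ℝ)| ^ ((1 : ℝ) / 2) := Real.one_le_rpow hx1 (by norm_num)
      rw [sub_zero]
      rcases h1 with h1 | h1
      · calc |(e.2 : ℝ) ^ 2 - (e.1 : ℝ) ^ 3| ≤ k₀ := h1
          _ ≤ max C' k₀ := le_max_right _ _
          _ = max C' k₀ * 1 := (mul_one _).symm
          _ ≤ max C' k₀ * |((e.1 : ℤ) : ℝ)| ^ ((1 : ℝ) / 2) :=
              mul_le_mul_of_nonneg_left hp1 (le_trans hk₀.le (le_max_right _ _))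
      · exact h1.trans (mul_le_mul_of_nonneg_right (le_max_left _ _) (by positivity))
    · right
      exact he
  refine ⟨(hfin.union (Set.finite_singleton _)).subset hsub, ?_⟩
  have h2 := (Set.ncard_le_ncard hsub (hfin.union (Set.finite_singleton _))).trans (Set.ncard_union_le _ _)
  rw [Set.ncard_singleton] at h2
  have h3 : ({e | e ∈ Viol C ∧ |((e.1 : ℤ) : ℝ)| ≤ X}.ncard : ℝ) ≤ (S.ncard : ℝ) + 1 := by exact_mod_cast h2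
  have h4 : K * X ^ ((1 : ℝ) / 3 - 0 / 6 + ε) ≤ |K| * X ^ (1 / 3 + ε) := by
    have : (1 : ℝ) / 3 - 0 / 6 + ε = 1 / 3 + ε := by ring
    rw [this]
    exact mul_le_mul_of_nonneg_right (le_abs_self K) (by positivity)
  have h5 : (1 : ℝ) ≤ X ^ (1 / 3 + ε) := Real.one_le_rpow hX (by positivity)
  have h6 : (S.ncard : ℝ) ≤ K * X ^ ((1 : ℝ) / 3 - 0 / 6 + ε) := hcard
  linarith

/-- the integers `k ≠ 0` with a violation of bounded height -/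
def VK (C A : ℝ) : Set ℤ :=
  {k : ℤ | k ≠ 0 ∧ ∃ x y : ℤ, y ^ 2 = x ^ 3 + k ∧ C * |(k : ℝ)| ^ 3 < max |(x : ℝ)| |(y : ℝ)| ∧
    |(x : ℝ)| ≤ |(k : ℝ)| ^ A}

lemma count_k (C A : ℝ) (hC : 0 < C) (hA : 2 ≤ A) (ε : ℝ) (hε : 0 < ε) : ∃ M : ℝ, ∀ X : ℝ, 1 ≤ X →
    {k | k ∈ VK C A ∧ |((k : ℤ) : ℝ)| ≤ X}.Finite ∧
      ({k | k ∈ VK C A ∧ |((k : ℤ) : ℝ)| ≤ X}.ncard : ℝ) ≤ M * X ^ (A / 4 + 1 / 6 + ε) := by
  obtain ⟨M, hM⟩ := SparseViolations.result C A ε hC hA hε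
  refine ⟨M, fun X hX => ?_⟩
  have hfin : {k : ℤ | k ≠ 0 ∧ |(k : ℝ)| ≤ X ∧ ∃ x y : ℤ, y ^ 2 = x ^ 3 + k ∧
      C * |(k : ℝ)| ^ 3 < max |(x : ℝ)| |(y : ℝ)| ∧ |(x : ℝ)| ≤ X ^ A}.Finite := by
    refine (Set.finite_Icc (-⌊X⌋) ⌊X⌋).subset ?_
    rintro k ⟨-, h1, -⟩
    rw [abs_le] at h1
    rw [Set.mem_Icc]
    constructor
    · rw [neg_le]
      apply Int.le_floor.2
      push_cast
      linarith [h1.1]
    · exact Int.le_floor.2 h1.2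
  have hsub : {k | k ∈ VK C A ∧ |((k : ℤ) : ℝ)| ≤ X} ⊆
      {k : ℤ | k ≠ 0 ∧ |(k : ℝ)| ≤ X ∧ ∃ x y : ℤ, y ^ 2 = x ^ 3 + k ∧
      C * |(k : ℝ)| ^ 3 < max |(x : ℝ)| |(y : ℝ)| ∧ |(x : ℝ)| ≤ X ^ A} := by
    rintro k ⟨⟨h0, x, y, h1, h2, h3⟩, h4⟩
    exact ⟨h0, h4, x, y, h1, h2, h3.trans (Real.rpow_le_rpow (abs_nonneg _) h4 (by linarith))⟩
  refine ⟨hfin.subset hsub, ?_⟩
  have h5 : ({k | k ∈ VK C A ∧ |((k : ℤ) : ℝ)| ≤ X}.ncard : ℝ) ≤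
      ({k : ℤ | k ≠ 0 ∧ |(k : ℝ)| ≤ X ∧ ∃ x y : ℤ, y ^ 2 = x ^ 3 + k ∧
      C * |(k : ℝ)| ^ 3 < max |(x : ℝ)| |(y : ℝ)| ∧ |(x : ℝ)| ≤ X ^ A}.ncard : ℝ) := by
    exact_mod_cast Set.ncard_le_ncard hsub hfin
  exact h5.trans (hM X hX)

/-- the integers `k ≠ 0` with an integral point of moderate height -/
def HasPoint : Set ℤ :=
  {k : ℤ | k ≠ 0 ∧ ∃ x y : ℤ, y ^ 2 = x ^ 3 + k ∧ |(x : ℝ)| ≤ Real.exp (|(k : ℝ)| ^ ((1 : ℝ) / 10000))}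

lemma count_p (ε : ℝ) (hε : 0 < ε) : ∃ M : ℝ, ∀ X : ℝ, 1 ≤ X →
    {k | k ∈ HasPoint ∧ |((k : ℤ) : ℝ)| ≤ X}.Finite ∧
      ({k | k ∈ HasPoint ∧ |((k : ℤ) : ℝ)| ≤ X}.ncard : ℝ) ≤ M * X ^ (99 / 100 + ε) := by
  obtain ⟨M, hM⟩ := AlmostAllK.result
  refine ⟨|M|, fun X hX => ?_⟩
  have hfin : {k : ℤ | k ≠ 0 ∧ |(k : ℝ)| ≤ X ∧ ∃ x y : ℤ, y ^ 2 = x ^ 3 + k ∧
      |(x : ℝ)| ≤ Real.exp (X ^ ((1 : ℝ) / 10000))}.Finite := by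
    refine (Set.finite_Icc (-⌊X⌋) ⌊X⌋).subset ?_
    rintro k ⟨-, h1, -⟩
    rw [abs_le] at h1
    rw [Set.mem_Icc]
    constructor
    · rw [neg_le]
      apply Int.le_floor.2
      push_cast
      linarith [h1.1]
    · exact Int.le_floor.2 h1.2
  have hsub : {k | k ∈ HasPoint ∧ |((k : ℤ) : ℝ)| ≤ X} ⊆
      {k : ℤ | k ≠ 0 ∧ |(k : ℝ)| ≤ X ∧ ∃ x y : ℤ, y ^ 2 = x ^ 3 + k ∧
      |(x : ℝ)| ≤ Real.exp (X ^ ((1 : ℝ) / 10000))} := by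
    rintro k ⟨⟨h0, x, y, h1, h2⟩, h4⟩
    refine ⟨h0, h4, x, y, h1, h2.trans (Real.exp_le_exp.2 ?_)⟩
    exact Real.rpow_le_rpow (abs_nonneg _) h4 (by norm_num)
  refine ⟨hfin.subset hsub, ?_⟩
  have h5 : ({k | k ∈ HasPoint ∧ |((k : ℤ) : ℝ)| ≤ X}.ncard : ℝ) ≤
      ({k : ℤ | k ≠ 0 ∧ |(k : ℝ)| ≤ X ∧ ∃ x y : ℤ, y ^ 2 = x ^ 3 + k ∧
      |(x : ℝ)| ≤ Real.exp (X ^ ((1 : ℝ) / 10000))}.ncard : ℝ) := by
    exact_mod_cast Set.ncard_le_ncard hsub hfin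
  refine h5.trans ((hM X hX).trans ?_)
  calc M * X ^ ((99 : ℝ) / 100) ≤ |M| * X ^ ((99 : ℝ) / 100) :=
        mul_le_mul_of_nonneg_right (le_abs_self M) (by positivity)
    _ ≤ |M| * X ^ (99 / 100 + ε) :=
        mul_le_mul_of_nonneg_left (Real.rpow_le_rpow_of_exponent_le hX (by linarith)) (abs_nonneg M)

/-- **Theorem.** Let `v ≥ 1` be a sequence of exponent of convergence at most `τ ≥ 0`, `0 ≤ θ < 1` and `C > 0`.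
(1) There is a set `E` of Hausdorff dimension at most `(1/3 + τ) / (1 - θ)` such that for each `α > 0` outside `E`, for
all but finitely many `n`, `max (|x|, |y|) ≤ C |k|³` for all integers `k ≠ 0`, `x`, `y` with `y² = x³ + k` and
`||x| - α v_n| ≤ v_n ^ θ`.
(2) Let `A ≥ 2`. There is a set `E` of Hausdorff dimension at most `(A/4 + 1/6 + τ) / (1 - θ)` such that for each `α > 0`
outside `E`, for all but finitely many `n`, `max (|x|, |y|) ≤ C |k|³` for all integers `k ≠ 0`, `x`, `y` with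
`y² = x³ + k`, `||k| - α v_n| ≤ v_n ^ θ` and `|x| ≤ |k| ^ A`.
(3) There is a set `E` of Hausdorff dimension at most `(99/100 + τ) / (1 - θ)` such that for each `α > 0` outside `E`,
for all but finitely many `n`, no curve `y² = x³ + k` with `k ≠ 0`, `||k| - α v_n| ≤ v_n ^ θ` has an integral point
with `|x| ≤ exp(|k| ^ (1/10000))`.
(4) The sequences `v_n = (n + 1) ^ κ` and `v_n = b ^ n` have exponent of convergence at most `1 / κ` and `0`. -/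
theorem result :
    (∀ (v : ℕ → ℝ) (τ θ C : ℝ), (∀ n, 1 ≤ v n) → 0 ≤ τ → ExpLe v τ → 0 ≤ θ → θ < 1 → 0 < C →
      (∃ E : Set ℝ, dimH E ≤ ENNReal.ofReal ((1 / 3 + τ) / (1 - θ)) ∧ ∀ α : ℝ, 0 < α → α ∉ E →
        ∃ n₀ : ℕ, ∀ n : ℕ, n₀ ≤ n → ∀ k x y : ℤ, k ≠ 0 → y ^ 2 = x ^ 3 + k →
          |(|x| : ℝ) - α * v n| ≤ (v n) ^ θ → max |(x : ℝ)| |(y : ℝ)| ≤ C * |(k : ℝ)| ^ 3) ∧
      (∀ A : ℝ, 2 ≤ A →
        ∃ E : Set ℝ, dimH E ≤ ENNReal.ofReal ((A / 4 + 1 / 6 + τ) / (1 - θ)) ∧ ∀ α : ℝ, 0 < α → α ∉ E →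
        ∃ n₀ : ℕ, ∀ n : ℕ, n₀ ≤ n → ∀ k x y : ℤ, k ≠ 0 → y ^ 2 = x ^ 3 + k →
          |(|k| : ℝ) - α * v n| ≤ (v n) ^ θ → |(x : ℝ)| ≤ |(k : ℝ)| ^ A →
          max |(x : ℝ)| |(y : ℝ)| ≤ C * |(k : ℝ)| ^ 3)) ∧
    (∀ (v : ℕ → ℝ) (τ θ : ℝ), (∀ n, 1 ≤ v n) → 0 ≤ τ → ExpLe v τ → 0 ≤ θ → θ < 1 →
      ∃ E : Set ℝ, dimH E ≤ ENNReal.ofReal ((99 / 100 + τ) / (1 - θ)) ∧ ∀ α : ℝ, 0 < α → α ∉ E →
        ∃ n₀ : ℕ, ∀ n : ℕ, n₀ ≤ n → ∀ k x y : ℤ, k ≠ 0 → y ^ 2 = x ^ 3 + k →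
          |(|k| : ℝ) - α * v n| ≤ (v n) ^ θ → Real.exp (|(k : ℝ)| ^ ((1 : ℝ) / 10000)) < |(x : ℝ)|) ∧
    (∀ κ : ℝ, 0 < κ → ExpLe (fun n : ℕ => ((n : ℝ) + 1) ^ κ) (1 / κ)) ∧
    (∀ b : ℝ, 1 < b → ExpLe (fun n : ℕ => b ^ n) 0) := by
  refine ⟨fun v τ θ C hv hτ hE hθ hθ1 hC => ⟨?_, fun A hA => ?_⟩, fun v τ θ hv hτ hE hθ hθ1 => ?_,
    fun κ hκ => Pool.Agent.Y854.GM.expLe_pow κ hκ, fun b hb => Pool.Agent.Y854.GM.expLe_geom b hb⟩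
  · obtain ⟨E, h2, h3⟩ := Pool.Agent.Y854.GM.windows (Viol C) (fun e => |((e.1 : ℤ) : ℝ)|) hv hτ hE
      (s := 1 / 3) (by norm_num) hθ1 (count_x C hC)
    refine ⟨E, h2, fun α hα hαE => ?_⟩
    obtain ⟨n₀, hn⟩ := h3 α hα hαE
    refine ⟨n₀, fun n hn1 k x y hk hxy hw => ?_⟩
    by_contra hcon
    push Not at hcon
    have hx : x ≠ 0 := by
      rintro rfl
      have h5 := hn n hn1 (0, 0) (Or.inr rfl)
      exact absurd h5 (not_lt.2 hw)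
    have hk2 : y ^ 2 - x ^ 3 = k := by rw [hxy]; ring
    have hmem : (x, y) ∈ Viol C := by
      left
      refine ⟨hx, ?_, ?_⟩
      · intro h
        apply hk
        rw [← hk2]
        exact sub_eq_zero.2 h
      · show C * |((y ^ 2 - x ^ 3 : ℤ) : ℝ)| ^ 3 < max |((x : ℤ) : ℝ)| |((y : ℤ) : ℝ)|
        rw [hk2]
        exact hcon
    exact absurd (hn n hn1 (x, y) hmem) (not_lt.2 hw)
  · obtain ⟨E, h2, h3⟩ := Pool.Agent.Y854.GM.windows (VK C A) (fun k => |((k : ℤ) : ℝ)|) hv hτ hE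
      (s := A / 4 + 1 / 6) (by linarith) hθ1 (count_k C A hC hA)
    refine ⟨E, h2, fun α hα hαE => ?_⟩
    obtain ⟨n₀, hn⟩ := h3 α hα hαE
    refine ⟨n₀, fun n hn1 k x y hk hxy hw hxA => ?_⟩
    by_contra hcon
    push Not at hcon
    exact absurd (hn n hn1 k ⟨hk, x, y, hxy, hcon, hxA⟩) (not_lt.2 hw)
  · obtain ⟨E, h2, h3⟩ := Pool.Agent.Y854.GM.windows HasPoint (fun k => |((k : ℤ) : ℝ)|) hv hτ hE
      (s := 99 / 100) (by norm_num) hθ1 count_p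
    refine ⟨E, h2, fun α hα hαE => ?_⟩
    obtain ⟨n₀, hn⟩ := h3 α hα hαE
    refine ⟨n₀, fun n hn1 k x y hk hxy hw => ?_⟩
    by_contra hcon
    push Not at hcon
    exact absurd (hn n hn1 k ⟨hk, x, y, hxy, hcon⟩) (not_lt.2 hw)

end Pool.Agent.Results.MP_f2148a_nt.WindowsWithoutViolations
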